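import Mathlib
import Pool.Agent.P.MP_92cab9_nt.Ana

/-!
The quantitative Schanuel bound for almost all real tuples.
-/

open Polynomial MeasureTheory

namespace Pool.Agent.Results.MP_92cab9_nt.SchanuelAlmostAll

/-- The minimal polynomial of `γ` in `ℤ[X]` (up to sign): clear the denominators of the minimal
polynomial over `ℚ` and take the primitive part. -/
noncomputable def minpolyInt (γ : ℂ) : Polynomial ℤ :=
  (IsLocalization.integerNormalization (nonZeroDivisors ℤ) (minpoly ℚ γ)).primPart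

/-- The Mahler measure `M(γ) = a₀ ∏ max(1, |γ_j|)`. -/
noncomputable def mahler (γ : ℂ) : ℝ :=
  |((minpolyInt γ).leadingCoeff : ℝ)| *
    (((minpolyInt γ).aroots ℂ).map fun z => max 1 ‖z‖).prod

/-- The absolute logarithmic height `h(γ) = log M(γ) / [ℚ(γ) : ℚ]`. -/
noncomputable def height (γ : ℂ) : ℝ :=
  Real.log (mahler γ) / Module.finrank ℚ (IntermediateField.adjoin ℚ {γ})

open Pool.Agent.P.MP_92cab9_nt

lemma MB_of_height {γ : ℂ} (hγ : IsAlgebraic ℚ γ) {h : ℝ} (hh : height γ ≤ h) :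
    MB (minpoly ℚ γ) (Real.exp h) := by
  have hint : IsIntegral ℚ γ := hγ.isIntegral
  have hmon := minpoly.monic hint
  obtain ⟨b, hb, hg⟩ := IsLocalization.integerNormalization_spec (nonZeroDivisors ℤ) (minpoly ℚ γ)
  set g := IsLocalization.integerNormalization (nonZeroDivisors ℤ) (minpoly ℚ γ) with hgdef
  have hb0 : (b : ℚ) ≠ 0 := by exact_mod_cast nonZeroDivisors.ne_zero hb
  have hg1 : g.map (Int.castRingHom ℚ) = C (b : ℚ) * minpoly ℚ γ := by
    rw [← smul_eq_C_mul, Int.cast_smul_eq_zsmul]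
    exact hg
  have hg0 : g ≠ 0 := by
    intro h0
    rw [h0, Polynomial.map_zero] at hg1
    exact mul_ne_zero (C_ne_zero.2 hb0) hmon.ne_zero hg1.symm
  have hc0 : (g.content : ℚ) ≠ 0 := by exact_mod_cast mt content_eq_zero_iff.1 hg0
  have hf1 : (minpolyInt γ).map (Int.castRingHom ℚ) = C ((b : ℚ) / g.content) * minpoly ℚ γ := by
    have h1 := congrArg (Polynomial.map (Int.castRingHom ℚ)) (eq_C_content_mul_primPart g)
    rw [hg1, Polynomial.map_mul, map_C] at h1
    apply mul_left_cancel₀ (C_ne_zero.2 hc0)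
    rw [← mul_assoc, ← C_mul, mul_div_cancel₀ _ hc0, h1]
    rfl
  have hlc : ((minpolyInt γ).leadingCoeff : ℚ) = (b : ℚ) / g.content := by
    have h1 := congrArg leadingCoeff hf1
    rw [leadingCoeff_map_of_injective (RingHom.injective_int _), leadingCoeff_mul, leadingCoeff_C,
      hmon.leadingCoeff, mul_one] at h1
    exact h1
  have hlc0 : (minpolyInt γ).leadingCoeff ≠ 0 := by
    intro h0
    rw [h0, Int.cast_zero] at hlc
    exact div_ne_zero hb0 hc0 hlc.symm
  have hroots : (minpolyInt γ).aroots ℂ = (minpoly ℚ γ).aroots ℂ := by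
    rw [← aroots_C_mul _ (div_ne_zero hb0 hc0), ← hf1]
    rw [aroots_def, aroots_def, Polynomial.map_map]
    congr 2
  refine ⟨minpolyInt γ, (minpolyInt γ).leadingCoeff, hlc0, by rw [hlc, hf1], ?_⟩
  rw [← hroots]
  have hpos : 0 < mahler γ := by
    refine mul_pos (abs_pos.2 (by exact_mod_cast hlc0)) (Multiset.prod_pos fun z hz => ?_)
    obtain ⟨w, -, rfl⟩ := Multiset.mem_map.1 hz
    positivity
  have hd : (0 : ℝ) < (minpoly ℚ γ).natDegree := by exact_mod_cast minpoly.natDegree_pos hint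
  rw [height, IntermediateField.adjoin.finrank hint, div_le_iff₀ hd] at hh
  rw [← Real.exp_nat_mul, mul_comm ((minpoly ℚ γ).natDegree : ℝ)]
  exact (Real.log_le_iff_le_exp hpos).1 hh

theorem result (n : ℕ) (hn : 1 ≤ n) :
    ∀ᵐ x : Fin n → ℝ, ∃ c D₀ : ℝ, 0 < c ∧ 0 < D₀ ∧
      ∀ (D : ℕ) (μ : ℝ), D₀ ≤ D → (D : ℝ) ≤ μ →
      ∀ α β : Fin n → ℂ, (∀ i, IsAlgebraic ℚ (α i)) → (∀ i, IsAlgebraic ℚ (β i)) →
        Module.finrank ℚ (IntermediateField.adjoin ℚ (Set.range α ∪ Set.range β)) ≤ D →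
        (∀ i, (Module.finrank ℚ (IntermediateField.adjoin ℚ (Set.range α ∪ Set.range β)) : ℝ) *
          max (height (α i)) (height (β i)) ≤ μ) →
        ∃ i, Real.exp (-(c * (D : ℝ) ^ (1 / (2 * n : ℝ)) * μ)) ≤
          max ‖(x i : ℂ) - β i‖ ‖(Real.exp (x i) : ℂ) - α i‖ := by
  have hC : 0 ≤ cA n := by unfold cA; positivity
  filter_upwards [ae_not_Bad hn hC] with x hx
  obtain ⟨C', hC', N₀, hN₀⟩ := hx ⌈‖x‖⌉₊
  set R : ℕ := ⌈‖x‖⌉₊ with hR
  have hxR : ‖x‖ ≤ R := Nat.le_ceil _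
  refine ⟨2 * C' + R + 1, N₀ + 1, by positivity, by positivity, ?_⟩
  intro D μ hD hμ α β hα hβ hdD hh
  by_contra hcon
  push Not at hcon
  set K := IntermediateField.adjoin ℚ (Set.range α ∪ Set.range β) with hK
  have hfin : FiniteDimensional ℚ K := by
    have : Finite (Set.range α ∪ Set.range β : Set ℂ) :=
      ((Set.finite_range α).union (Set.finite_range β)).to_subtype
    refine IntermediateField.finiteDimensional_adjoin ?_
    rintro _ (⟨i, rfl⟩ | ⟨i, rfl⟩)
    · exact (hα i).isIntegral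
    · exact (hβ i).isIntegral
  have : NumberField K := ⟨⟩
  set d := Module.finrank ℚ K with hd
  have hd1 : (1 : ℝ) ≤ d := by exact_mod_cast Module.finrank_pos
  have hdD' : (d : ℝ) ≤ D := by exact_mod_cast hdD
  have hD1 : (1 : ℝ) ≤ D := hd1.trans hdD'
  set W : ℝ := (D : ℝ) ^ (1 / (2 * n : ℝ)) * μ with hW
  have hroot : 1 ≤ (D : ℝ) ^ (1 / (2 * n : ℝ)) := Real.one_le_rpow hD1 (by positivity)
  have hμW : μ ≤ W := le_mul_of_one_le_left (by linarith) hroot
  have hW1 : 1 ≤ W := by linarith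
  set N := ⌈W⌉₊ with hN
  have hWN : W ≤ N := Nat.le_ceil _
  have hNW : (N : ℝ) ≤ 2 * W := by
    have := Nat.ceil_lt_add_one (show 0 ≤ W by linarith)
    linarith
  have hcon' : ∀ i, max ‖(x i : ℂ) - β i‖ ‖(Real.exp (x i) : ℂ) - α i‖ <
      Real.exp (-((2 * C' + R + 1) * W)) := fun i => by
    have := hcon i
    rwa [mul_assoc] at this
  let ξ : Ix n → K := Sum.elim
    (fun i => ⟨β i, IntermediateField.subset_adjoin _ _ (Or.inr ⟨i, rfl⟩)⟩)
    (fun i => ⟨α i, IntermediateField.subset_adjoin _ _ (Or.inl ⟨i, rfl⟩)⟩)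
  have hα0 : ∀ i, ξ (Sum.inr i) ≠ 0 := by
    intro i h0
    have h1 : α i = 0 := congrArg Subtype.val h0
    have h2 := (le_max_right _ _).trans_lt (hcon' i)
    rw [h1, sub_zero, Complex.norm_real, Real.norm_of_nonneg (Real.exp_pos _).le,
      Real.exp_lt_exp] at h2
    have h3 : -(R : ℝ) ≤ x i := (abs_le.1 ((norm_le_pi_norm x i).trans hxR)).1
    have h4 : (0 : ℝ) ≤ R := Nat.cast_nonneg R
    nlinarith
  have hh1 : 1 ≤ μ / d := by
    rw [le_div_iff₀ (by linarith)]
    linarith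
  have hξ : ∀ j, MB (minpoly ℚ (ξ j)) (Real.exp (μ / d)) := by
    intro j
    have e : minpoly ℚ (ξ j) = minpoly ℚ (ξ j : ℂ) :=
      (minpoly.algHom_eq K.val K.val.injective (ξ j)).symm
    rw [e]
    rcases j with i | i
    · refine MB_of_height (hβ i) ((le_max_right (height (α i)) _).trans ?_)
      rw [le_div_iff₀ (by linarith), mul_comm]
      exact hh i
    · refine MB_of_height (hα i) ((le_max_left _ (height (β i))).trans ?_)
      rw [le_div_iff₀ (by linarith), mul_comm]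
      exact hh i
  obtain ⟨t, ht, htd, i, c, hc, hF, hG⟩ := alg_main hn K.val ξ hα0 hh1 hξ
  have htd' : (t : ℝ) ^ (2 * n) ≤ d := by exact_mod_cast htd
  have hg0 : (0 : ℝ) < (t : ℝ) ^ (2 * n) := by positivity
  have htroot : (t : ℝ) ≤ (D : ℝ) ^ (1 / (2 * n : ℝ)) := by
    have h1 : ((t : ℝ) ^ (2 * n)) ^ (((2 * n : ℕ) : ℝ)⁻¹) = t :=
      Real.pow_rpow_inv_natCast (Nat.cast_nonneg t) (by omega)
    rw [← h1, one_div]
    push_cast
    exact Real.rpow_le_rpow hg0.le (htd'.trans hdD') (by positivity)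
  have htW : t * (μ / d) * d ≤ N := by
    rw [mul_assoc, div_mul_cancel₀ _ (by linarith)]
    exact le_trans (mul_le_mul_of_nonneg_right htroot (by linarith)) hWN
  refine hN₀ N ?_ ⟨t, ht, ?_, i, c, fun u => (hc u).trans (Real.exp_le_exp.2 ?_), hxR,
    fun j => K.val (ξ j), fun j => ?_, hF, le_trans (Real.exp_le_exp.2 ?_) hG⟩
  · have : (N₀ : ℝ) ≤ N := by linarith
    exact_mod_cast this
  · have : (t : ℝ) ^ (2 * n) ≤ N := by linarith
    exact_mod_cast this
  · rw [mul_div_assoc]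
    refine mul_le_mul_of_nonneg_left ?_ hC
    rw [le_div_iff₀ hg0]
    exact le_trans (mul_le_mul_of_nonneg_left htd' (by positivity)) htW
  · have h1 : Real.exp (-((2 * C' + R + 1) * W)) ≤ Real.exp (-(C' * N)) := by
      have h4 : (0 : ℝ) ≤ R := Nat.cast_nonneg R
      exact Real.exp_le_exp.2 (by nlinarith)
    rw [norm_sub_rev]
    rcases j with i | i
    · exact ((le_max_left _ _).trans (hcon' i).le).trans h1
    · exact ((le_max_right _ _).trans (hcon' i).le).trans h1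
  · exact neg_le_neg (mul_le_mul_of_nonneg_left htW hC)

end Pool.Agent.Results.MP_92cab9_nt.SchanuelAlmostAll
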